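import Pool.Agent.H43.SAK.Stmts

/-!
# Project SAK: pointwise branching numbers (stronger form of TREE and FIN)

No hypothesis on `A`: every point `a` of `A` is counted with the weight `1/∏ B_j(a)`, where `B_j(a)` is
the number of classes of `y` modulo `p^(j+1)` in `A` over the class of `a.1` modulo `p^(j+1)` and the
class of `a.2` modulo `p^j`.
-/

namespace Pool.Agent.H43.SAK

open Finset

/-- the branching number of `A` at scale `j` at the point `a` -/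
noncomputable def bn {d : ℕ} (p : ℕ) (A : Finset ((Fin d → ℤ) × (Fin d → ℤ))) (j : ℕ)
    (a : (Fin d → ℤ) × (Fin d → ℤ)) : ℕ := by
  classical exact
    ((A.filter (fun b => cg ((p : ℤ) ^ (j + 1)) b.1 a.1 ∧ cg ((p : ℤ) ^ j) b.2 a.2)).image
      (fun b => fun i => b.2 i % (p : ℤ) ^ (j + 1))).card

/-- TREE, stronger form -/
def Tree2St : Prop := ∀ (p : ℕ) [Fact p.Prime] (c : ℝ), 0 < c → FunIneq p c →
  ∀ (d : ℕ) [Fintype (ZMod p)] (A : Finset ((Fin d → ℤ) × (Fin d → ℤ))) (J : ℕ),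
  (∀ a ∈ A, ∀ b ∈ A, cg ((p : ℤ) ^ J) a.1 b.1 → cg ((p : ℤ) ^ J) a.2 b.2 → a = b) →
  ∑ a ∈ A, (∏ j ∈ Finset.range J, (bn p A j a : ℝ))⁻¹ ≤
    ∏ t : ZMod p, ((A.image (pr p t)).card : ℝ) ^ c

/-- FIN, stronger form -/
def Fin2St : Prop := ∀ ε : ℝ, 0 < ε → ∃ p₀ : ℕ, ∀ p : ℕ, p₀ ≤ p → p.Prime →
  ∀ (m d : ℕ) (A : Finset ((Fin d → ℤ) × (Fin d → ℤ))) (J : ℕ),
    (∀ a ∈ A, ∀ b ∈ A, (∀ i, (p : ℤ) ^ J ∣ a.2 i - b.2 i) → a.2 = b.2) →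
    ∑ a ∈ A, (∏ j ∈ Finset.range J,
      (((A.filter (fun b : (Fin d → ℤ) × (Fin d → ℤ) =>
          (∀ i, (p : ℤ) ^ (j + m + 1) ∣ (b.1 i - b.2 i) - (a.1 i - a.2 i)) ∧
            ∀ i, (p : ℤ) ^ j ∣ b.2 i - a.2 i)).image
        (fun b => fun i => b.2 i % (p : ℤ) ^ (j + 1))).card : ℝ))⁻¹ ≤
      (max ((A.image (fun a => a.2)).card : ℝ)
        (((Finset.Icc 1 (p - 1)).sup (fun s : ℕ =>
          (A.image (fun a => a.1 + ((s : ℤ) * (p : ℤ) ^ m - 1) • a.2)).card) : ℕ) : ℝ)) ^ (1 + ε)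

end Pool.Agent.H43.SAK
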