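import Mathlib
import Pool.Agent.H43.SAK.Stmts2

/-! Project SAK: the final inequality with pointwise branching numbers (adapted from the module FIN of
helper95). -/

namespace Pool.Agent.H43.SAK

open Finset

/-- the change of variables -/
def fin2G {d : ℕ} (p m : ℕ) (a : (Fin d → ℤ) × (Fin d → ℤ)) : (Fin d → ℤ) × (Fin d → ℤ) :=
  (a.1 - a.2, ((p : ℤ) ^ m) • a.2)

theorem fin2G_inj {d : ℕ} {p : ℕ} (hp : 0 < p) (m : ℕ) : Function.Injective (fin2G (d := d) p m) := by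
  intro a b h
  have hpz : ((p : ℤ) ^ m) ≠ 0 := pow_ne_zero _ (by exact_mod_cast hp.ne')
  have h1 : a.1 - a.2 = b.1 - b.2 := congrArg Prod.fst h
  have h2 : ((p : ℤ) ^ m) • a.2 = ((p : ℤ) ^ m) • b.2 := congrArg Prod.snd h
  have h3 : a.2 = b.2 := by
    funext i
    have := congrFun h2 i
    simp only [Pi.smul_apply, smul_eq_mul] at this
    exact mul_left_cancel₀ hpz this
  rw [h3] at h1
  exact Prod.ext (sub_left_injective h1) h3

theorem sep_exists {d : ℕ} (p : ℕ) (hp2 : 2 ≤ p) (A : Finset ((Fin d → ℤ) × (Fin d → ℤ))) (L : ℕ) :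
    ∃ K, L ≤ K ∧ ∀ a ∈ A, ∀ b ∈ A, cg ((p : ℤ) ^ K) a.1 b.1 → cg ((p : ℤ) ^ K) a.2 b.2 → a = b := by
  set S : ℕ := ∑ a ∈ A, ∑ i, ((a.1 i).natAbs + (a.2 i).natAbs) with hS
  set K := L + 2 * S + 1 with hK
  have hpK : (2 * S : ℤ) < (p : ℤ) ^ K := by
    have h1 : 2 * S < 2 ^ (2 * S) := Nat.lt_two_pow_self
    have h2 : 2 ^ (2 * S) ≤ p ^ (2 * S) := Nat.pow_le_pow_left hp2 _
    have h3 : p ^ (2 * S) ≤ p ^ K := Nat.pow_le_pow_right (by omega) (by omega)
    exact_mod_cast (h1.trans_le h2).trans_le h3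
  have hle : ∀ a ∈ A, ∀ i, (a.1 i).natAbs + (a.2 i).natAbs ≤ S := by
    intro a ha i
    have h1 : ∑ i, ((a.1 i).natAbs + (a.2 i).natAbs) ≤ S :=
      Finset.single_le_sum (f := fun a : (Fin d → ℤ) × (Fin d → ℤ) =>
        ∑ i, ((a.1 i).natAbs + (a.2 i).natAbs)) (fun _ _ => Nat.zero_le _) ha
    have h2 : (a.1 i).natAbs + (a.2 i).natAbs ≤ ∑ i, ((a.1 i).natAbs + (a.2 i).natAbs) :=
      Finset.single_le_sum (f := fun i => (a.1 i).natAbs + (a.2 i).natAbs)
        (fun _ _ => Nat.zero_le _) (Finset.mem_univ i)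
    exact h2.trans h1
  have hz : ∀ x y : ℤ, x.natAbs ≤ S → y.natAbs ≤ S → (p : ℤ) ^ K ∣ x - y → x = y := by
    intro x y hx hy hxy
    by_contra hne
    have h1 := Int.le_of_dvd (abs_pos.mpr (sub_ne_zero.mpr hne)) ((dvd_abs _ _).mpr hxy)
    have h2 : |x - y| ≤ 2 * S := by
      rw [abs_le]
      constructor <;> omega
    omega
  refine ⟨K, by omega, ?_⟩
  intro a ha b hb e1 e2
  ext1
  · funext i
    exact hz _ _ (by have := hle a ha i; omega) (by have := hle b hb i; omega) (e1 i)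
  · funext i
    exact hz _ _ (by have := hle a ha i; omega) (by have := hle b hb i; omega) (e2 i)

theorem fin2_bn_pos {d p : ℕ} (A : Finset ((Fin d → ℤ) × (Fin d → ℤ))) (j : ℕ)
    (a : (Fin d → ℤ) × (Fin d → ℤ)) (ha : a ∈ A) : 0 < bn p A j a := by
  classical
  unfold bn
  rw [Finset.card_pos]
  refine ⟨_, Finset.mem_image_of_mem _ (Finset.mem_filter.mpr ⟨ha, ?_, ?_⟩)⟩
  · intro i; simp
  · intro i; simp

theorem fin2 (hs : SetSt) (hf : FblSt) (ht : Tree2St) : Fin2St := by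
  intro ε hε
  obtain ⟨p₀, h0⟩ := hs ε hε
  refine ⟨p₀, fun p hp hpp m d A J hsepy => ?_⟩
  obtain ⟨C, hC, hSI⟩ := h0 p hp hpp
  have : Fact p.Prime := ⟨hpp⟩
  have hp0 : (0 : ℝ) < p := by exact_mod_cast hpp.pos
  have hc : 0 < (1 + ε) / (p : ℝ) := div_pos (by linarith) hp0
  have hFI := hf p ((1 + ε) / p) C hc hC hSI
  have hpz : (0 : ℤ) < (p : ℤ) ^ m := pow_pos (by exact_mod_cast hpp.pos) _
  classical
  set A' := A.image (fin2G p m) with hA'
  obtain ⟨K, hK, hsep⟩ := sep_exists p hpp.two_le A' (m + J)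
  have hT := ht p ((1 + ε) / p) hc hFI d A' K hsep
  have hsum : ∑ a ∈ A', (∏ j ∈ Finset.range K, (bn p A' j a : ℝ))⁻¹ =
      ∑ a ∈ A, (∏ j ∈ Finset.range K, (bn p A' j (fin2G p m a) : ℝ))⁻¹ := by
    rw [hA', Finset.sum_image (fun a _ b _ hab => fin2G_inj hpp.pos m hab)]
  rw [hsum] at hT
  -- the branching numbers of A'
  have hlow : ∀ j, j < m → ∀ a, bn p A' j (fin2G p m a) ≤ 1 := by
    intro j hj a
    unfold bn
    rw [Finset.card_le_one]
    have key : ∀ v ∈ ((A'.filter (fun b => cg ((p : ℤ) ^ (j + 1)) b.1 (fin2G p m a).1 ∧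
        cg ((p : ℤ) ^ j) b.2 (fin2G p m a).2)).image
          (fun b => fun i => b.2 i % (p : ℤ) ^ (j + 1))), v = fun _ => 0 := by
      intro v hv
      rw [mem_image] at hv
      obtain ⟨b, hb, rfl⟩ := hv
      rw [mem_filter, hA', mem_image] at hb
      obtain ⟨⟨b0, hb0, rfl⟩, _⟩ := hb
      funext i
      show ((p : ℤ) ^ m * b0.2 i) % (p : ℤ) ^ (j + 1) = 0
      apply Int.emod_eq_zero_of_dvd
      exact dvd_mul_of_dvd_left (pow_dvd_pow _ hj) _
    intro v hv w hw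
    rw [key v (by convert hv), key w (by convert hw)]
  have hdiv : ∀ l (a b0 : (Fin d → ℤ) × (Fin d → ℤ)),
      cg ((p : ℤ) ^ (m + l)) (fin2G p m b0).2 (fin2G p m a).2 → ∀ i, (p : ℤ) ^ l ∣ b0.2 i - a.2 i := by
    intro l a b0 hb2 i
    have h1 : (p : ℤ) ^ (m + l) ∣ (p : ℤ) ^ m * b0.2 i - (p : ℤ) ^ m * a.2 i := hb2 i
    rw [← mul_sub, pow_add] at h1
    exact Int.dvd_of_mul_dvd_mul_left hpz.ne' h1
  have hmid : ∀ l, ∀ a, bn p A' (m + l) (fin2G p m a) ≤
      ((A.filter (fun b : (Fin d → ℤ) × (Fin d → ℤ) =>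
          (∀ i, (p : ℤ) ^ (l + m + 1) ∣ (b.1 i - b.2 i) - (a.1 i - a.2 i)) ∧
            ∀ i, (p : ℤ) ^ l ∣ b.2 i - a.2 i)).image
        (fun b => fun i => b.2 i % (p : ℤ) ^ (l + 1))).card := by
    intro l a
    unfold bn
    refine le_trans (card_le_card (t := ((A.filter (fun b : (Fin d → ℤ) × (Fin d → ℤ) =>
        (∀ i, (p : ℤ) ^ (l + m + 1) ∣ (b.1 i - b.2 i) - (a.1 i - a.2 i)) ∧
          ∀ i, (p : ℤ) ^ l ∣ b.2 i - a.2 i)).image
      (fun b => fun i => b.2 i % (p : ℤ) ^ (l + 1))).image (fun v i => (p : ℤ) ^ m * v i)) ?_)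
      card_image_le
    intro v hv
    rw [mem_image] at hv
    obtain ⟨b, hb, rfl⟩ := hv
    rw [mem_filter, hA', mem_image] at hb
    obtain ⟨⟨b0, hb0, rfl⟩, hb1, hb2⟩ := hb
    rw [mem_image]
    refine ⟨fun i => b0.2 i % (p : ℤ) ^ (l + 1), ?_, ?_⟩
    · rw [mem_image]
      refine ⟨b0, ?_, rfl⟩
      rw [mem_filter]
      refine ⟨hb0, fun i => ?_, hdiv l a b0 hb2⟩
      have h1 := hb1 i
      have e : l + m + 1 = m + l + 1 := by ring
      rw [e]
      exact h1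
    · funext i
      show (p : ℤ) ^ m * (b0.2 i % (p : ℤ) ^ (l + 1)) = ((p : ℤ) ^ m * b0.2 i) % (p : ℤ) ^ (m + l + 1)
      have e : m + l + 1 = m + (l + 1) := by ring
      rw [e, pow_add (p : ℤ) m (l + 1), Int.mul_emod_mul_of_pos _ _ hpz]
  have hhigh : ∀ l, J ≤ l → ∀ a ∈ A, bn p A' (m + l) (fin2G p m a) ≤ 1 := by
    intro l hl a ha
    refine (hmid l a).trans ?_
    rw [Finset.card_le_one]
    have key : ∀ v ∈ ((A.filter (fun b : (Fin d → ℤ) × (Fin d → ℤ) =>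
        (∀ i, (p : ℤ) ^ (l + m + 1) ∣ (b.1 i - b.2 i) - (a.1 i - a.2 i)) ∧
          ∀ i, (p : ℤ) ^ l ∣ b.2 i - a.2 i)).image
      (fun b => fun i => b.2 i % (p : ℤ) ^ (l + 1))), v = fun i => a.2 i % (p : ℤ) ^ (l + 1) := by
      intro v hv
      rw [mem_image] at hv
      obtain ⟨b, hb, rfl⟩ := hv
      rw [mem_filter] at hb
      have h1 : b.2 = a.2 := hsepy b hb.1 a ha (fun i => (pow_dvd_pow _ hl).trans (hb.2.2 i))
      rw [h1]
    intro v hv w hw
    rw [key v hv, key w hw]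
  refine le_trans (Finset.sum_le_sum fun a ha => ?_) (le_trans hT ?_)
  · have hpos : (0 : ℝ) < ∏ j ∈ Finset.range K, (bn p A' j (fin2G p m a) : ℝ) := by
      apply Finset.prod_pos
      intro j _
      exact_mod_cast fin2_bn_pos A' j _ (Finset.mem_image_of_mem _ ha)
    apply inv_anti₀ hpos
    obtain ⟨L, rfl⟩ : ∃ L, K = m + (J + L) := ⟨K - (m + J), by omega⟩
    rw [prod_range_add, prod_range_add]
    have h1 : ∏ j ∈ Finset.range m, (bn p A' j (fin2G p m a) : ℝ) ≤ 1 := by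
      apply Finset.prod_le_one
      · intro j _; positivity
      · intro j hj
        rw [Finset.mem_range] at hj
        exact_mod_cast hlow j hj a
    have h2 : ∏ j ∈ Finset.range L, (bn p A' (m + (J + j)) (fin2G p m a) : ℝ) ≤ 1 := by
      apply Finset.prod_le_one
      · intro j _; positivity
      · intro j _
        exact_mod_cast hhigh (J + j) (by omega) a ha
    have h3 : ∏ j ∈ Finset.range J, (bn p A' (m + j) (fin2G p m a) : ℝ) ≤
        ∏ j ∈ Finset.range J, (((A.filter (fun b : (Fin d → ℤ) × (Fin d → ℤ) =>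
          (∀ i, (p : ℤ) ^ (j + m + 1) ∣ (b.1 i - b.2 i) - (a.1 i - a.2 i)) ∧
            ∀ i, (p : ℤ) ^ j ∣ b.2 i - a.2 i)).image
        (fun b => fun i => b.2 i % (p : ℤ) ^ (j + 1))).card : ℝ) := by
      apply Finset.prod_le_prod
      · intro j _; positivity
      · intro j _
        exact_mod_cast hmid j a
    have h4 : (0 : ℝ) ≤ ∏ j ∈ Finset.range J, (((A.filter (fun b : (Fin d → ℤ) × (Fin d → ℤ) =>
          (∀ i, (p : ℤ) ^ (j + m + 1) ∣ (b.1 i - b.2 i) - (a.1 i - a.2 i)) ∧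
            ∀ i, (p : ℤ) ^ j ∣ b.2 i - a.2 i)).image
        (fun b => fun i => b.2 i % (p : ℤ) ^ (j + 1))).card : ℝ) :=
      Finset.prod_nonneg fun j _ => Nat.cast_nonneg _
    have h5 : (0 : ℝ) ≤ ∏ j ∈ Finset.range J, (bn p A' (m + j) (fin2G p m a) : ℝ) :=
      Finset.prod_nonneg fun j _ => Nat.cast_nonneg _
    have h6 : (0 : ℝ) ≤ ∏ j ∈ Finset.range L, (bn p A' (m + (J + j)) (fin2G p m a) : ℝ) :=
      Finset.prod_nonneg fun j _ => Nat.cast_nonneg _
    calc _ ≤ 1 * ((∏ j ∈ Finset.range J, (bn p A' (m + j) (fin2G p m a) : ℝ)) * 1) := by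
          apply mul_le_mul h1 _ (mul_nonneg h5 h6) zero_le_one
          exact mul_le_mul_of_nonneg_left h2 h5
      _ = ∏ j ∈ Finset.range J, (bn p A' (m + j) (fin2G p m a) : ℝ) := by ring
      _ ≤ _ := h3
  set N : ℝ := max ((A.image (fun a => a.2)).card : ℝ)
        (((Finset.Icc 1 (p - 1)).sup (fun s : ℕ =>
          (A.image (fun a => a.1 + ((s : ℤ) * (p : ℤ) ^ m - 1) • a.2)).card) : ℕ) : ℝ) with hN
  have hN0 : 0 ≤ N := le_max_of_le_left (Nat.cast_nonneg _)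
  have hle : ∀ t : ZMod p, ((A'.image (pr p t)).card : ℝ) ≤ N := by
    intro t
    by_cases h0 : t = 0
    · refine le_trans ?_ (le_max_left _ _)
      have h1 : A'.image (pr p t) = (A.image (fun a => a.2)).image (fun v => ((p : ℤ) ^ m) • v) := by
        rw [hA', image_image, image_image]
        apply image_congr
        intro a _
        show pr p t (fin2G p m a) = ((p : ℤ) ^ m) • a.2
        unfold pr
        rw [if_pos h0]
        rfl
      rw [h1]
      exact_mod_cast card_image_le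
    · refine le_trans ?_ (le_max_right _ _)
      have hs1 : 1 ≤ (t⁻¹).val := by
        rw [Nat.one_le_iff_ne_zero]
        intro h
        rw [ZMod.val_eq_zero] at h
        exact h0 (inv_eq_zero.1 h)
      have hs2 : (t⁻¹).val ≤ p - 1 := by
        have := ZMod.val_lt (t⁻¹)
        omega
      have h1 : A'.image (pr p t) = A.image (fun a => a.1 + ((((t⁻¹).val : ℕ) : ℤ) * (p : ℤ) ^ m - 1) • a.2) := by
        rw [hA', image_image]
        apply image_congr
        intro a _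
        show pr p t (fin2G p m a) = _
        unfold pr
        rw [if_neg h0]
        show a.1 - a.2 + (((t⁻¹).val : ℕ) : ℤ) • (((p : ℤ) ^ m) • a.2) = _
        module
      rw [h1]
      exact_mod_cast le_sup (f := fun s : ℕ =>
        (A.image (fun a => a.1 + ((s : ℤ) * (p : ℤ) ^ m - 1) • a.2)).card)
        (mem_Icc.2 ⟨hs1, hs2⟩)
  calc ∏ t : ZMod p, ((A'.image (pr p t)).card : ℝ) ^ ((1 + ε) / (p : ℝ)) ≤
        ∏ _t : ZMod p, N ^ ((1 + ε) / (p : ℝ)) :=
        prod_le_prod (fun t _ => by positivity) fun t _ =>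
          Real.rpow_le_rpow (Nat.cast_nonneg _) (hle t) hc.le
    _ = N ^ (1 + ε) := by
      rw [prod_const, card_univ, ZMod.card, ← Real.rpow_natCast, ← Real.rpow_mul hN0,
        div_mul_cancel₀ _ hp0.ne']

end Pool.Agent.H43.SAK
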