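import Mathlib

/-!
# Project SAK: arithmetic Kakeya for sticky sets in all dimensions, statements

One scale: the finite field Kakeya problem in `F_p^m` for an arbitrary set `D` of directions
(polynomial method with multiplicities at the points). All scales: an inequality of
Brascamp-Lieb type, which is preserved by products and by trees.
-/

namespace Pool.Agent.H43.SAK

open Finset

/-- the slice at height `t` of the lines `(x v + t v, t)`, `v` in `D` -/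
def sl {p : ℕ} {V : Type} [AddCommGroup V] [Module (ZMod p) V] [DecidableEq V] (D : Finset V)
    (x : V → V) (t : ZMod p) : Finset V := D.image (fun v => x v + t • v)

/-- MON: monomials of degree at most `p - 1` in each variable give a basis of the functions on `D` -/
def MonSt : Prop := ∀ (p m : ℕ) [Fact p.Prime] (D : Finset (Fin m → ZMod p)),
  ∃ Δ : Finset (Fin m → ℕ), Δ.card = D.card ∧ (∀ α ∈ Δ, ∀ i, α i ≤ p - 1) ∧
    ∀ c : (Fin m → ℕ) → ZMod p, (∀ v ∈ D, ∑ α ∈ Δ, c α * ∏ i, v i ^ α i = 0) → ∀ α ∈ Δ, c α = 0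

/-- PM: the polynomial method with multiplicity `r` at the points -/
def PmSt : Prop := ∀ (p m r : ℕ) [Fact p.Prime] (D : Finset (Fin m → ZMod p))
  (x : (Fin m → ZMod p) → (Fin m → ZMod p)) (Θ : Finset (ZMod p)),
  D.card * (r * Θ.card - m * (p - 1)) ≤ (∑ t ∈ Θ, (sl D x t).card) * (m + r).choose (m + 1)

/-- DR: a finite set can be mapped injectively by a linear map to a space of small dimension -/
def DrSt : Prop := ∀ (p : ℕ) [Fact p.Prime] (V : Type) [AddCommGroup V] [Module (ZMod p) V] [Finite V]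
  (D : Finset V), D.Nonempty →
  ∃ m : ℕ, p ^ m ≤ D.card ^ 2 * p ∧ ∃ L : V →ₗ[ZMod p] (Fin m → ZMod p), Set.InjOn L (D : Set V)

/-- the set inequality with exponent `c` and constant `C` -/
def SetIneq (p : ℕ) (c C : ℝ) : Prop := ∀ (V : Type) [AddCommGroup V] [Module (ZMod p) V] [Finite V]
  [DecidableEq V] [Fintype (ZMod p)] (D : Finset V) (x : V → V),
  (D.card : ℝ) ≤ C * ∏ t : ZMod p, ((sl D x t).card : ℝ) ^ c

/-- the functional inequality with exponent `c` -/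
def FunIneq (p : ℕ) (c : ℝ) : Prop := ∀ (V : Type) [AddCommGroup V] [Module (ZMod p) V] [Finite V]
  [DecidableEq V] [Fintype (ZMod p)] (D : Finset V) (x : V → V) (f : ZMod p → V → ℝ),
  (∀ t v, 0 ≤ f t v) →
  ∑ v ∈ D, ∏ t : ZMod p, (f t (x v + t • v)) ^ c ≤ ∏ t : ZMod p, (∑ y ∈ sl D x t, f t y) ^ c

/-- SET: the set inequality -/
def SetSt : Prop := ∀ ε : ℝ, 0 < ε → ∃ p₀ : ℕ, ∀ p : ℕ, p₀ ≤ p → p.Prime →
  ∃ C : ℝ, 0 < C ∧ SetIneq p ((1 + ε) / p) C

/-- FBL: from the set inequality to the functional inequality (tensor power trick) -/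
def FblSt : Prop := ∀ (p : ℕ) [Fact p.Prime] (c C : ℝ), 0 < c → 0 < C → SetIneq p c C → FunIneq p c

/-- slopes: the slope `∞` for `t = 0` and the slope `s` with `s t = 1`, `1 ≤ s < p`, for `t ≠ 0`;
the points are the pairs `(v, y)` -/
def pr {d : ℕ} (p : ℕ) (t : ZMod p) (a : (Fin d → ℤ) × (Fin d → ℤ)) : Fin d → ℤ :=
  if t = 0 then a.2 else a.1 + ((t⁻¹).val : ℤ) • a.2

/-- congruence modulo `q` of vectors -/
def cg {d : ℕ} (q : ℤ) (a b : Fin d → ℤ) : Prop := ∀ i, q ∣ a i - b i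

/-- `A` has at most `B j` classes of `y` mod `p^(j+1)` over each class of `v` mod `p^(j+1)` and `y` mod `p^j` -/
def Br {d : ℕ} (p : ℕ) (A : Finset ((Fin d → ℤ) × (Fin d → ℤ))) (B : ℕ → ℕ) : Prop := by
  classical exact ∀ j, ∀ a ∈ A,
    ((A.filter (fun b => cg ((p : ℤ) ^ (j + 1)) b.1 a.1 ∧ cg ((p : ℤ) ^ j) b.2 a.2)).image
      (fun b => fun i => b.2 i % (p : ℤ) ^ (j + 1))).card ≤ B j

/-- TREE: the inequality for sets with small branching -/
def TreeSt : Prop := ∀ (p : ℕ) [Fact p.Prime] (c : ℝ), 0 < c → FunIneq p c →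
  ∀ (d : ℕ) [Fintype (ZMod p)] (A : Finset ((Fin d → ℤ) × (Fin d → ℤ))) (B : ℕ → ℕ) (J : ℕ),
  (∀ j, J ≤ j → B j = 1) → Br p A B →
  (A.card : ℝ) ≤ (∏ j ∈ Finset.range J, (B j : ℝ)) * ∏ t : ZMod p, ((A.image (pr p t)).card : ℝ) ^ c

/-- FIN: the final inequality -/
def FinSt : Prop := ∀ ε : ℝ, 0 < ε → ∃ p₀ : ℕ, ∀ p : ℕ, p₀ ≤ p → p.Prime →
  ∀ (m d : ℕ) (A : Finset ((Fin d → ℤ) × (Fin d → ℤ))) (B : ℕ → ℕ) (J : ℕ),
    (∀ j, J ≤ j → B j = 1) →
    (∀ j, ∀ a ∈ A,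
      ((A.filter (fun b : (Fin d → ℤ) × (Fin d → ℤ) =>
          (∀ i, (p : ℤ) ^ (j + m + 1) ∣ (b.1 i - b.2 i) - (a.1 i - a.2 i)) ∧
            ∀ i, (p : ℤ) ^ j ∣ b.2 i - a.2 i)).image
        (fun b => fun i => b.2 i % (p : ℤ) ^ (j + 1))).card ≤ B j) →
    (A.card : ℝ) ≤ (∏ j ∈ Finset.range J, (B j : ℝ)) *
      (max ((A.image (fun a => a.2)).card : ℝ)
        (((Finset.Icc 1 (p - 1)).sup (fun s : ℕ =>
          (A.image (fun a => a.1 + ((s : ℤ) * (p : ℤ) ^ m - 1) • a.2)).card) : ℕ) : ℝ)) ^ (1 + ε)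

end Pool.Agent.H43.SAK
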