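import Mathlib
import Pool.Agent.H43.SAK.Stmts2
import Pool.Agent.H47.SAK.TREE

/-!
Project SAK, TREE with pointwise branching numbers (adapted from the module TREE of helper47).
-/

namespace Pool.Agent.H43.SAK

open Finset

lemma tr_bn {d p : ℕ} [NeZero p] (A : Finset ((Fin d → ℤ) × (Fin d → ℤ)))
    (A' : Finset ((Fin d → ℤ) × (Fin d → ℤ))) (q : (Fin d → ZMod p) × (Fin d → ZMod p))
    (hA' : ∀ a' ∈ A', ∃ a ∈ A, trCl p a = q ∧ trDv p a = a') (j : ℕ)
    (a : (Fin d → ℤ) × (Fin d → ℤ)) (haq : trCl p a = q) :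
    bn p A' j (trDv p a) ≤ bn p A (j + 1) a := by
  classical
  unfold bn
  have hp : (0 : ℤ) < p := by exact_mod_cast Nat.pos_of_ne_zero (NeZero.ne p)
  apply Finset.card_le_card_of_injOn (fun y => fun i => (p : ℤ) * y i + trLift q.2 i)
  · intro y hy
    rw [Finset.mem_coe, Finset.mem_image] at hy
    obtain ⟨b', hb', rfl⟩ := hy
    rw [Finset.mem_filter] at hb'
    obtain ⟨hb'A, h1, h2⟩ := hb'
    obtain ⟨b, hb, hbq, rfl⟩ := hA' b' hb'A
    rw [Finset.mem_coe, Finset.mem_image]
    refine ⟨b, ?_, ?_⟩
    · rw [Finset.mem_filter]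
      refine ⟨hb, ?_, ?_⟩
      · exact tr_cg _ _ _ (by
          have := congrArg Prod.fst (hbq.trans haq.symm)
          exact this) h1
      · exact tr_cg _ _ _ (by
          have := congrArg Prod.snd (hbq.trans haq.symm)
          exact this) h2
    · funext i
      have e : b.2 i = (p : ℤ) * (trDv p b).2 i + trLift q.2 i := by
        have e1 := congrFun (tr_eq (p := p) b.2) i
        have e2 : trRed p b.2 = q.2 := congrArg Prod.snd hbq
        rw [e2] at e1
        exact e1
      rw [e, pow_succ' (p : ℤ) (j + 1)]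
      exact tr_emod _ _ _ _ hp (pow_pos hp _) (tr_lift_nonneg _ _) (tr_lift_lt _ _)
  · intro y _ z _ h
    funext i
    have h1 := congrFun h i
    simp only [add_left_inj] at h1
    exact mul_left_cancel₀ hp.ne' h1

lemma tr_node2 {d p : ℕ} [NeZero p] (A : Finset ((Fin d → ℤ) × (Fin d → ℤ)))
    [DecidableEq ((Fin d → ZMod p) × (Fin d → ZMod p))] [DecidableEq (Fin d → ZMod p)]
    (a : (Fin d → ℤ) × (Fin d → ℤ)) :
    ((A.image (trCl p)).filter (fun q => q.1 = (trCl p a).1)).card ≤ bn p A 0 a := by
  classical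
  unfold bn
  apply Finset.card_le_card_of_injOn (fun q => trLift q.2)
  · intro q hq
    rw [Finset.mem_coe, Finset.mem_filter, Finset.mem_image] at hq
    obtain ⟨⟨b, hb, rfl⟩, hbw⟩ := hq
    rw [Finset.mem_coe, Finset.mem_image]
    refine ⟨b, ?_, ?_⟩
    · rw [Finset.mem_filter]
      refine ⟨hb, ?_, ?_⟩
      · intro i
        have h1 : ((b.1 i : ℤ) : ZMod p) = ((a.1 i : ℤ) : ZMod p) := congrFun hbw i
        have h2 := (ZMod.intCast_eq_intCast_iff_dvd_sub (a.1 i) (b.1 i) p).mp h1.symm
        simpa using h2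
      · intro i; simp
    · funext i
      have := tr_lift_red (p := p) b.2 i
      simp only [zero_add, pow_one]
      exact this.symm
  · intro q hq q' hq' h
    rw [Finset.mem_coe, Finset.mem_filter] at hq hq'
    exact Prod.ext (hq.2.trans hq'.2.symm) (tr_lift_inj _ _ h)

lemma bn_pos {d p : ℕ} (A : Finset ((Fin d → ℤ) × (Fin d → ℤ))) (j : ℕ)
    (a : (Fin d → ℤ) × (Fin d → ℤ)) (ha : a ∈ A) : 0 < bn p A j a := by
  classical
  unfold bn
  rw [Finset.card_pos]
  refine ⟨_, Finset.mem_image_of_mem _ (Finset.mem_filter.mpr ⟨ha, ?_, ?_⟩)⟩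
  · intro i; simp
  · intro i; simp

/-- the functional version, by induction -/
theorem tr_ind2 (p : ℕ) [Fact p.Prime] (c : ℝ) (hc : 0 < c) (hF : FunIneq p c) (d : ℕ)
    [Fintype (ZMod p)] : ∀ (K : ℕ) (A : Finset ((Fin d → ℤ) × (Fin d → ℤ)))
    (f : ZMod p → (Fin d → ℤ) → ℝ), (∀ t g, 0 ≤ f t g) →
    (∀ a ∈ A, ∀ b ∈ A, cg ((p : ℤ) ^ K) a.1 b.1 → cg ((p : ℤ) ^ K) a.2 b.2 → a = b) →
    ∑ a ∈ A, (∏ j ∈ Finset.range K, (bn p A j a : ℝ))⁻¹ * ∏ t : ZMod p, (f t (pr p t a)) ^ c ≤
      ∏ t : ZMod p, (∑ g ∈ A.image (pr p t), f t g) ^ c := by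
  classical
  intro K
  induction K with
  | zero =>
    intro A f hf hsep
    simp only [Finset.range_zero, Finset.prod_empty, inv_one, one_mul]
    rcases A.eq_empty_or_nonempty with h | ⟨a, ha⟩
    · rw [h, Finset.sum_empty]
      exact Finset.prod_nonneg fun t _ => Real.rpow_nonneg (Finset.sum_nonneg fun g _ => hf t g) _
    · have hA : A = {a} := by
        ext b
        rw [Finset.mem_singleton]
        constructor
        · intro hb
          exact hsep b hb a ha (fun i => by simp) (fun i => by simp)
        · rintro rfl; exact ha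
      rw [hA]
      simp
  | succ K ih =>
    intro A f hf hsep
    set h : ZMod p → (Fin d → ZMod p) → ℝ := fun t γ =>
      ∑ g ∈ (A.image (pr p t)).filter (fun g => trRed p g = γ), f t g with hh
    have hh0 : ∀ t γ, 0 ≤ h t γ := fun t γ => Finset.sum_nonneg fun g _ => hf t g
    set H : (Fin d → ZMod p) × (Fin d → ZMod p) → ℝ := fun q => ∏ t : ZMod p, (h t (prm t q)) ^ c with hH
    have hH0 : ∀ q, 0 ≤ H q := fun q => Finset.prod_nonneg fun t _ => Real.rpow_nonneg (hh0 t _) _
    have hpr0 : ∀ a, 0 ≤ ∏ t : ZMod p, (f t (pr p t a)) ^ c :=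
      fun a => Finset.prod_nonneg fun t _ => Real.rpow_nonneg (hf t _) _
    set Q := A.image (trCl p) with hQ
    set M : (Fin d → ZMod p) → ℕ := fun w => (Q.filter (fun q => q.1 = w)).card with hM
    -- one class
    have hcl : ∀ q ∈ Q, ∑ a ∈ A.filter (fun a => trCl p a = q),
        (∏ j ∈ Finset.range (K + 1), (bn p A j a : ℝ))⁻¹ * ∏ t : ZMod p, (f t (pr p t a)) ^ c ≤
          ((M q.1 : ℝ))⁻¹ * H q := by
      intro q hqQ
      set A' := (A.filter (fun a => trCl p a = q)).image (trDv p) with hA'
      have hA'1 : ∀ a' ∈ A', ∃ a ∈ A, trCl p a = q ∧ trDv p a = a' := by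
        intro a' ha'
        rw [hA', Finset.mem_image] at ha'
        obtain ⟨a, ha, rfl⟩ := ha'
        rw [Finset.mem_filter] at ha
        exact ⟨a, ha.1, ha.2, rfl⟩
      have hMpos : (0 : ℝ) < M q.1 := by
        have : 0 < M q.1 := by
          rw [hM]
          exact Finset.card_pos.mpr ⟨q, Finset.mem_filter.mpr ⟨hqQ, rfl⟩⟩
        exact_mod_cast this
      have h1 := ih A'
        (fun t g' => f t ((p : ℤ) • g' + pr p t (trLf q))) (fun t g => hf t _)
        (by
          intro a' ha' b' hb' e1 e2
          rw [hA', Finset.mem_image] at ha' hb'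
          obtain ⟨a, ha, rfl⟩ := ha'
          obtain ⟨b, hb, rfl⟩ := hb'
          rw [Finset.mem_filter] at ha hb
          have hab := ha.2.trans hb.2.symm
          rw [hsep a ha.1 b hb.1 (tr_cg _ _ _ (congrArg Prod.fst hab) e1)
            (tr_cg _ _ _ (congrArg Prod.snd hab) e2)])
      have hinjD : ∀ a ∈ A.filter (fun a => trCl p a = q), ∀ b ∈ A.filter (fun a => trCl p a = q),
          trDv p a = trDv p b → a = b := by
        intro a ha b hb hab
        rw [Finset.mem_filter] at ha hb
        exact tr_dv_inj a b (ha.2.trans hb.2.symm) hab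
      have hsi : ∀ F : (Fin d → ℤ) × (Fin d → ℤ) → ℝ, ∑ a' ∈ A', F a' =
          ∑ a ∈ A.filter (fun a => trCl p a = q), F (trDv p a) := by
        intro F
        rw [hA', Finset.sum_image (fun a ha b hb hab => hinjD a ha b hb hab)]
      rw [hsi] at h1
      have h2 : ∑ a ∈ A.filter (fun a => trCl p a = q),
          (∏ j ∈ Finset.range (K + 1), (bn p A j a : ℝ))⁻¹ * ∏ t : ZMod p, (f t (pr p t a)) ^ c ≤
          ((M q.1 : ℝ))⁻¹ * ∑ a ∈ A.filter (fun a => trCl p a = q),
            (∏ j ∈ Finset.range K, (bn p A' j (trDv p a) : ℝ))⁻¹ *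
            ∏ t : ZMod p, (f t ((p : ℤ) • pr p t (trDv p a) + pr p t (trLf q))) ^ c := by
        rw [Finset.mul_sum]
        apply Finset.sum_le_sum
        intro a ha
        have haA' : trDv p a ∈ A' := Finset.mem_image_of_mem _ ha
        rw [Finset.mem_filter] at ha
        have e : ∏ t : ZMod p, (f t (pr p t a)) ^ c =
            ∏ t : ZMod p, (f t ((p : ℤ) • pr p t (trDv p a) + pr p t (trLf q))) ^ c := by
          apply Finset.prod_congr rfl
          intro t _
          rw [tr_pr t a, ha.2]
        rw [← e, ← mul_assoc]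
        apply mul_le_mul_of_nonneg_right _ (hpr0 a)
        rw [← mul_inv]
        have hpos : (0 : ℝ) < ∏ j ∈ Finset.range K, (bn p A' j (trDv p a) : ℝ) := by
          apply Finset.prod_pos
          intro j _
          exact_mod_cast bn_pos A' j _ haA'
        apply inv_anti₀ (mul_pos hMpos hpos)
        rw [Finset.prod_range_succ', mul_comm]
        apply mul_le_mul
        · apply Finset.prod_le_prod
          · intro j _; positivity
          · intro j _
            exact_mod_cast tr_bn A A' q hA'1 j a ha.2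
        · have h3 := tr_node2 (p := p) A a
          rw [ha.2] at h3
          rw [hM]
          exact_mod_cast h3
        · exact hMpos.le
        · apply Finset.prod_nonneg
          intro j _; positivity
      refine h2.trans (mul_le_mul_of_nonneg_left ?_ (inv_nonneg.mpr hMpos.le))
      refine h1.trans ?_
      apply Finset.prod_le_prod
      · intro t _
        exact Real.rpow_nonneg (Finset.sum_nonneg fun g _ => hf t _) _
      · intro t _
        apply Real.rpow_le_rpow (Finset.sum_nonneg fun g _ => hf t _) _ hc.le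
        rw [hh]
        simp only
        have hinj : Function.Injective (fun g' : Fin d → ℤ => (p : ℤ) • g' + pr p t (trLf q)) := by
          intro g g' e
          simp only [add_left_inj] at e
          have hp : (p : ℤ) ≠ 0 := by exact_mod_cast (Fact.out : p.Prime).ne_zero
          exact smul_right_injective _ hp e
        rw [← Finset.sum_image (f := f t) (s := A'.image (pr p t))
          (g := fun g' : Fin d → ℤ => (p : ℤ) • g' + pr p t (trLf q))
          (fun x _ y _ e => hinj e)]
        apply Finset.sum_le_sum_of_subset_of_nonneg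
        · intro g hg
          rw [Finset.mem_image] at hg
          obtain ⟨g', hg', rfl⟩ := hg
          rw [Finset.mem_image] at hg'
          obtain ⟨a', ha', rfl⟩ := hg'
          obtain ⟨a, ha, haq, rfl⟩ := hA'1 a' ha'
          have e : (p : ℤ) • pr p t (trDv p a) + pr p t (trLf q) = pr p t a := by
            rw [tr_pr t a, haq]
          rw [Finset.mem_filter]
          rw [e]
          refine ⟨Finset.mem_image_of_mem _ ha, ?_⟩
          rw [tr_red_pr]
          congr 1
        · intro g _ _
          exact hf t g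
    -- sum over the classes
    have h1 : ∑ a ∈ A, (∏ j ∈ Finset.range (K + 1), (bn p A j a : ℝ))⁻¹ *
        ∏ t : ZMod p, (f t (pr p t a)) ^ c ≤ ∑ q ∈ Q, ((M q.1 : ℝ))⁻¹ * H q := by
      rw [← Finset.sum_fiberwise_of_maps_to (s := A) (t := Q) (g := trCl p)
        (fun a ha => Finset.mem_image_of_mem _ ha)]
      exact Finset.sum_le_sum fun q hq => hcl q hq
    -- the node
    set D := Q.image Prod.fst with hD
    have hx : ∀ w ∈ D, ∃ u, ∀ q ∈ Q, q.1 = w → H q ≤ H (w, u) := by
      intro w hw
      rw [hD, Finset.mem_image] at hw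
      obtain ⟨q0, hq0, rfl⟩ := hw
      obtain ⟨q1, hq1, hmax⟩ := Finset.exists_max_image (Q.filter (fun q => q.1 = q0.1)) H
        ⟨q0, by simp [hq0]⟩
      rw [Finset.mem_filter] at hq1
      refine ⟨q1.2, fun q hq hq' => ?_⟩
      have : (q0.1, q1.2) = q1 := Prod.ext hq1.2.symm rfl
      rw [this]
      exact hmax q (Finset.mem_filter.mpr ⟨hq, hq'⟩)
    choose! x hx using hx
    have h2 : ∑ q ∈ Q, ((M q.1 : ℝ))⁻¹ * H q ≤ ∑ w ∈ D, H (w, x w) := by
      rw [← Finset.sum_fiberwise_of_maps_to (s := Q) (t := D) (g := Prod.fst)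
        (fun a ha => Finset.mem_image_of_mem _ ha)]
      apply Finset.sum_le_sum
      intro w hw
      calc ∑ q ∈ Q with q.1 = w, ((M q.1 : ℝ))⁻¹ * H q
          ≤ ∑ q ∈ Q with q.1 = w, ((M w : ℝ))⁻¹ * H (w, x w) := by
            apply Finset.sum_le_sum
            intro q hq
            rw [Finset.mem_filter] at hq
            rw [hq.2]
            exact mul_le_mul_of_nonneg_left (hx w hw q hq.1 hq.2) (by positivity)
        _ = (M w : ℝ) * (((M w : ℝ))⁻¹ * H (w, x w)) := by
            rw [Finset.sum_const, nsmul_eq_mul]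
        _ = ((M w : ℝ) * ((M w : ℝ))⁻¹) * H (w, x w) := by ring
        _ ≤ 1 * H (w, x w) := by
            apply mul_le_mul_of_nonneg_right _ (hH0 _)
            exact mul_inv_le_one
        _ = H (w, x w) := one_mul _
    -- the functional inequality
    have h3 := hF (Fin d → ZMod p) D x (fun t y => h t (if t = 0 then y else t⁻¹ • y))
      (fun t y => hh0 t _)
    have h4 : ∑ w ∈ D, H (w, x w) =
        ∑ v ∈ D, ∏ t : ZMod p, (h t (if t = 0 then (x v + t • v) else t⁻¹ • (x v + t • v))) ^ c := by
      apply Finset.sum_congr rfl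
      intro w _
      rw [hH]
      simp only
      apply Finset.prod_congr rfl
      intro t _
      congr 2
      unfold prm
      split_ifs with ht
      · simp [ht]
      · rw [smul_add, smul_smul, inv_mul_cancel₀ ht, one_smul, add_comm]
    rw [← h4] at h3
    have h5 : ∀ t : ZMod p, ∑ y ∈ sl D x t, h t (if t = 0 then y else t⁻¹ • y) ≤
        ∑ g ∈ A.image (pr p t), f t g := by
      intro t
      have h6 : ∑ g ∈ A.image (pr p t), f t g = ∑ γ : Fin d → ZMod p, h t γ := by
        rw [hh]
        simp only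
        rw [Finset.sum_fiberwise]
      rw [h6]
      have hinj : Function.Injective (fun y : Fin d → ZMod p => if t = 0 then y else t⁻¹ • y) := by
        intro y y' e
        by_cases ht : t = 0
        · simpa [ht] using e
        · simp only [ht, if_false] at e
          exact smul_right_injective _ (inv_ne_zero ht) e
      rw [← Finset.sum_image (f := h t) (s := sl D x t)
        (g := fun y : Fin d → ZMod p => if t = 0 then y else t⁻¹ • y) (fun x _ y _ e => hinj e)]
      apply Finset.sum_le_sum_of_subset_of_nonneg (Finset.subset_univ _)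
      intro γ _ _
      exact hh0 t γ
    refine h1.trans (h2.trans (h3.trans (Finset.prod_le_prod ?_ ?_)))
    · intro t _
      exact Real.rpow_nonneg (Finset.sum_nonneg fun g _ => hh0 t _) _
    · intro t _
      exact Real.rpow_le_rpow (Finset.sum_nonneg fun g _ => hh0 t _) (h5 t) hc.le

theorem tree2 : Tree2St := by
  classical
  intro p _ c hc hF d _ A J hsep
  have h1 := tr_ind2 p c hc hF d J A (fun _ _ => 1) (fun _ _ => zero_le_one) hsep
  simp only [Real.one_rpow, Finset.prod_const_one, Finset.sum_const, nsmul_eq_mul, mul_one] at h1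
  convert h1 using 5

end Pool.Agent.H43.SAK
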